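import Pool.Agent.N993.WV.Hat

set_option autoImplicit false

/-! A relator with a generator that occurs only once is not used in a reduced diagram. -/

namespace Pool.Agent.N7.WV

open Pool.Agent.N993.WT (SphericalDiagram)
open Pool.Agent.N993.WV (S_ONCE)

variable {X R : Type} {r : R → List (X × Bool)} (D : SphericalDiagram r)

theorem pos_lt (d : D.D) : D.pos d < (r (D.cell d)).length := by
  have h := D.lett_eq d
  by_contra hc
  rw [List.getElem?_eq_none (not_lt.1 hc)] at h
  exact absurd h (by simp)

theorem cell_symm (d : D.D) : D.cell (D.nxt.symm d) = D.cell d := by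
  have h := D.cell_nxt (D.nxt.symm d)
  rw [Equiv.apply_symm_apply] at h
  exact h.symm

theorem sgn_symm (d : D.D) : D.sgn (D.nxt.symm d) = D.sgn d := by
  have h := D.sgn_nxt (D.nxt.symm d)
  rw [Equiv.apply_symm_apply] at h
  exact h.symm

theorem step (d : D.D) : ∃ d', D.cell d' = D.cell d ∧
    D.pos d' = (D.pos d + 1) % (r (D.cell d)).length := by
  have hd := pos_lt D d
  cases hs : D.sgn d with
  | true =>
    refine ⟨D.nxt d, D.cell_nxt d, ?_⟩
    rw [D.pos_nxt, hs, if_pos rfl]
    split_ifs with h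
    · rw [h, Nat.mod_self]
    · rw [Nat.mod_eq_of_lt (by omega)]
  | false =>
    refine ⟨D.nxt.symm d, cell_symm D d, ?_⟩
    have h := D.pos_nxt (D.nxt.symm d)
    have h1 := pos_lt D (D.nxt.symm d)
    rw [Equiv.apply_symm_apply, cell_symm, sgn_symm, hs] at h
    rw [cell_symm] at h1
    simp only [Bool.false_eq_true, if_false] at h
    split_ifs at h with h2
    · rw [h2, h]
      have : (r (D.cell d)).length - 1 + 1 = (r (D.cell d)).length := by omega
      rw [this, Nat.mod_self]
    · rw [h]
      have : D.pos (D.nxt.symm d) - 1 + 1 = D.pos (D.nxt.symm d) := by omega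
      rw [this, Nat.mod_eq_of_lt h1]

theorem reach (d : D.D) (t : ℕ) : ∃ d', D.cell d' = D.cell d ∧
    D.pos d' = (D.pos d + t) % (r (D.cell d)).length := by
  induction t with
  | zero => exact ⟨d, rfl, by rw [Nat.add_zero, Nat.mod_eq_of_lt (pos_lt D d)]⟩
  | succ t ih =>
    obtain ⟨d', h1, h2⟩ := ih
    obtain ⟨d'', h3, h4⟩ := step D d'
    refine ⟨d'', h3.trans h1, ?_⟩
    rw [h4, h2, h1, Nat.mod_add_mod, Nat.add_assoc]

theorem t_once : S_ONCE := by
  intro X R r e p x ⟨b, hb⟩ huniq D hred d hd
  have hp : p < (r e).length := by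
    by_contra hc
    rw [List.getElem?_eq_none (not_lt.1 hc)] at hb
    exact absurd hb (by simp)
  obtain ⟨d', h1, h2⟩ := reach D d ((r (D.cell d)).length - D.pos d + p)
  have hq := pos_lt D d
  have h3 : D.pos d + ((r (D.cell d)).length - D.pos d + p) = (r (D.cell d)).length + p := by omega
  rw [h3, Nat.add_mod_left, hd, Nat.mod_eq_of_lt hp] at h2
  rw [hd] at h1
  have h4 := D.lett_eq d'
  rw [h1, h2, hb] at h4
  have h5 := Option.some.inj h4
  have h6 : (D.lett d').1 = x := by
    cases hs : D.sgn d' with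
    | true =>
      rw [hs, if_pos rfl] at h5
      rw [← h5]
    | false =>
      rw [hs] at h5
      simp only [Bool.false_eq_true, if_false] at h5
      have := congrArg Prod.fst h5
      exact this.symm
  have h7 := D.lett_eq (D.opp d')
  have h8 : ∃ b', (if D.sgn (D.opp d') then D.lett (D.opp d') else
      Pool.Agent.N993.WT.flip (D.lett (D.opp d'))) = (x, b') := by
    rw [D.lett_opp]
    split_ifs
    · exact ⟨_, Prod.ext h6 rfl⟩
    · exact ⟨_, Prod.ext h6 rfl⟩
  obtain ⟨b', hb'⟩ := h8
  rw [hb'] at h7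
  obtain ⟨h9, h10⟩ := huniq _ _ _ h7
  refine hred d' ⟨h9.trans h1.symm, h10.trans h2.symm, ?_⟩
  intro hs
  rw [h9, h10, hb] at h7
  have h11 := Option.some.inj h7
  rw [← h11, D.lett_opp, hs, h5] at hb'
  cases hs' : D.sgn d' with
  | true =>
    rw [hs', if_pos rfl, if_pos rfl] at hb'
    have := congrArg Prod.snd hb'
    simp [Pool.Agent.N993.WT.flip] at this
  | false =>
    rw [hs'] at hb'
    simp only [Bool.false_eq_true, if_false] at hb'
    have := congrArg Prod.snd hb'
    simp [Pool.Agent.N993.WT.flip] at this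

end Pool.Agent.N7.WV
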